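import Pool.Agent.W262.RK.Stm2
import Pool.Agent.W262.RK.Bas

/-!
# RK2-GR: the greedy choice of a divisor
-/

namespace Pool.Agent.W358.RK2

open Finset Pool.Agent.W262.RK

lemma gr_mem_Tup {ι : Type} [Fintype ι] [DecidableEq ι] {z y : ℕ} {d : ι → ℕ} :
    d ∈ Tup ι z y ↔ (∀ i, d i ∣ PP z y) ∧ ∀ i j, i ≠ j → (d i).Coprime (d j) := by
  unfold Tup
  rw [mem_filter, Fintype.mem_piFinset]
  simp only [Nat.mem_divisors]
  constructor
  · rintro ⟨h1, h2⟩
    exact ⟨fun i => (h1 i).1, h2⟩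
  · rintro ⟨h1, h2⟩
    exact ⟨fun i => ⟨h1 i, PP_ne_zero z y⟩, h2⟩

lemma gcd_prod {ι : Type} [DecidableEq ι] (k : ℕ) (g : ι → ℕ) (s : Finset ι)
    (h : ∀ i ∈ s, ∀ j ∈ s, i ≠ j → (g i).Coprime (g j)) :
    Nat.gcd k (∏ j ∈ s, g j) = ∏ j ∈ s, Nat.gcd k (g j) := by
  induction s using Finset.induction_on with
  | empty => simp
  | insert a s ha ih =>
    rw [prod_insert ha, prod_insert ha]
    have hc : (g a).Coprime (∏ j ∈ s, g j) := by
      apply Nat.Coprime.prod_right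
      intro i hi
      exact h a (mem_insert_self _ _) i (mem_insert_of_mem hi) (by rintro rfl; exact ha hi)
    rw [Nat.Coprime.gcd_mul k hc, ih fun i hi j hj => h i (mem_insert_of_mem hi) j
      (mem_insert_of_mem hj)]

/-- GR: the greedy choice of a divisor. -/
theorem gr : Pool.Agent.W262.RK.GR := by
  intro J _ _ z y Y X hzy hyY hYX s v g hg hsv hsvg
  obtain ⟨hg1, hg2⟩ := gr_mem_Tup.1 hg
  obtain ⟨W, hW⟩ : ∃ W, W = ∏ j, s j * v j := ⟨_, rfl⟩
  have hWu : ∀ u : J → ℕ, ∏ j, s j * v j * u j = W * ∏ j, u j := by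
    intro u
    rw [prod_mul_distrib, ← hW]
  rw [← hW] at hsv
  rw [hWu] at hsvg
  by_cases hW16 : X < W ^ 16
  · refine ⟨fun _ => 1, gr_mem_Tup.2 ⟨fun _ => one_dvd _, fun _ _ _ => Nat.coprime_one_left _⟩,
      fun j => one_dvd _, ?_, ?_⟩
    · rw [hWu]
      simpa using hsv
    · rw [hWu]
      simpa using hW16
  · have hWX : W ^ 16 ≤ X := not_lt.1 hW16
    obtain ⟨P, hP⟩ : ∃ P, P = ∏ j, g j := ⟨_, rfl⟩
    rw [← hP] at hsvg
    have hPdvd : P ∣ PP y Y := by
      rw [hP]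
      apply Finset.prod_dvd_of_isRelPrime
      · intro i _ j _ hij
        exact Nat.coprime_iff_isRelPrime.1 (hg2 i j hij)
      · intro j _
        exact hg1 j
    have hex : ∃ d, d ∣ P ∧ X < (W * d) ^ 16 := by
      refine ⟨P, dvd_rfl, ?_⟩
      have h1 : 1 ≤ W * P := by
        rcases Nat.eq_zero_or_pos (W * P) with h | h
        · rw [h] at hsvg
          simp at hsvg
        · exact h
      exact lt_of_lt_of_le hsvg (Nat.pow_le_pow_right h1 (by norm_num))
    classical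
    obtain ⟨hu1, hu2⟩ := Nat.find_spec hex
    have hmin : ∀ d, d < Nat.find hex → ¬ (d ∣ P ∧ X < (W * d) ^ 16) := fun d hd =>
      Nat.find_min hex hd
    obtain ⟨u0, hu0⟩ : ∃ u0, u0 = Nat.find hex := ⟨_, rfl⟩
    rw [← hu0] at hu1 hu2 hmin
    have hne : u0 ≠ 1 := by
      intro h
      rw [h, mul_one] at hu2
      exact hW16 hu2
    obtain ⟨p, hp, hpu⟩ := Nat.exists_prime_and_dvd hne
    have hpY : p ≤ Y := by
      have h1 := (prime_dvd_PP hp).1 ((hpu.trans hu1).trans hPdvd)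
      exact (mem_PS.1 h1).1.2
    have hu0pos : 0 < u0 := Nat.pos_of_ne_zero (fun h => by
      rw [h] at hu2
      simp at hu2)
    obtain ⟨q, hq⟩ := hpu
    have hqlt : q < u0 := by
      have hq0 : 0 < q := Nat.pos_of_ne_zero (fun h => by
        rw [h, mul_zero] at hq
        omega)
      rw [hq]
      have := hp.two_le
      nlinarith
    have hqP : q ∣ P := (Dvd.intro_left p hq.symm).trans hu1
    have hqX : (W * q) ^ 16 ≤ X := by
      by_contra hcon
      exact hmin q hqlt ⟨hqP, not_le.1 hcon⟩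
    have hWu8 : (W * u0) ^ 8 ≤ X := by
      have h1 : ((W * u0) ^ 8) ^ 2 ≤ X ^ 2 := by
        calc ((W * u0) ^ 8) ^ 2 = (W * q) ^ 16 * p ^ 16 := by rw [hq]; ring
          _ ≤ X * X := Nat.mul_le_mul hqX ((Nat.pow_le_pow_left hpY 16).trans hYX)
          _ = X ^ 2 := by ring
      exact (Nat.pow_le_pow_iff_left (by norm_num)).1 h1
    have hprod : ∏ j, Nat.gcd u0 (g j) = u0 := by
      rw [← gcd_prod u0 g univ fun i _ j _ hij => hg2 i j hij, ← hP]
      exact Nat.gcd_eq_left hu1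
    refine ⟨fun j => Nat.gcd u0 (g j), gr_mem_Tup.2 ⟨fun j => (Nat.gcd_dvd_right _ _).trans (hg1 j),
      fun i j hij => ?_⟩, fun j => Nat.gcd_dvd_right _ _, ?_, ?_⟩
    · exact Nat.Coprime.of_dvd (Nat.gcd_dvd_right _ _) (Nat.gcd_dvd_right _ _) (hg2 i j hij)
    · rw [hWu, hprod]
      exact hWu8
    · rw [hWu, hprod]
      exact hu2

end Pool.Agent.W358.RK2
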